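import Pool.Agent.GK.X.Exy
import Pool.Agent.GR.RaDefs
import Pool.Agent.THF.L.Cx

/-!
# GR/X-Exr: fields with few real places (helper2)
-/

namespace Pool.Agent.GR

open NumberField IsDedekindDomain MulAction Pool.Agent.HWR Pool.Agent.QD Pool.Agent.H73.AL
  Pool.Agent.H73.DU Pool.Agent.MD Pool.Agent.LD Pool.Agent.TS Pool.Agent.GJ Pool.Agent.GK

/-- few real places -/
def RaD (g : ℕ) (F : Type) [Field F] [NumberField F] : Prop :=
  g * InfinitePlace.nrRealPlaces F ≤ 2 * Module.finrank ℚ F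

/-- the fields for which the exact functional equation is known -/
def ExaR (i g M : ℕ) (V T : Finset ℕ) (X : NF) : Prop :=
  (DvV (i + 1) V T X.F ∧ RaD g X.F ∧ M ∣ Module.finrank ℚ X.F) ∨
    InfinitePlace.nrComplexPlaces X.F = 0 ∨
    ∃ (Y : NF) (_ : Algebra Y.F X.F), Module.finrank Y.F X.F = 2

theorem raD_of {g : ℕ} {F : Type} [Field F] [NumberField F] (ψ : F →+* AlgebraicClosure ℚ)
    (h : Ra g (stb ψ)) : RaD g F := by
  obtain ⟨i, c, hc⟩ := Pool.Agent.THF.exists_cx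
  have h1 := h c ⟨i, hc⟩
  have hm : mark F (Subgroup.zpowers c) = pc (stb ψ) (Subgroup.zpowers c) := by
    rw [mark_eq_pc F ψ]
    rfl
  rw [← hm, Pool.Agent.THF.mark_cx hc F, index_stb ψ] at h1
  unfold RaD
  exact_mod_cast h1

theorem exaR_of_er {V T : Finset ℕ} {i g M : ℕ} {H : Subgroup GQ} (h : Er V T i g M H) (X : NF)
    (ψ : X.F →+* AlgebraicClosure ℚ) (hψ : stb ψ = H) : ExaR i g M V T X := by
  obtain ⟨-, ⟨h, h', h''⟩ | h | ⟨H', h1, h2, h3⟩⟩ := h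
  · left
    refine ⟨?_, raD_of ψ (hψ ▸ h'), ?_⟩
    · rw [← ci_iff ψ, hψ]
      exact h
    · rw [← index_stb ψ, hψ]
      exact h''
  · right
    left
    exact tr_complex ψ (hψ ▸ h)
  · right
    right
    obtain ⟨Y, ψ', g1, g2, g3⟩ := exists_nf H' h1
    obtain ⟨j, hj⟩ := sub_of_stb Y X ψ' ψ (by rw [hψ, g1]; exact h2)
    let alg : Algebra Y.F X.F := j.toAlgebra
    refine ⟨Y, alg, ?_⟩
    have h4 : Module.finrank ℚ Y.F * Module.finrank Y.F X.F = Module.finrank ℚ X.F :=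
      Module.finrank_mul_finrank ℚ Y.F X.F
    have h5 := Subgroup.relIndex_mul_index h2
    rw [h3, ← hψ, index_stb ψ, ← g1, index_stb ψ'] at h5
    have h6 : 0 < Module.finrank ℚ Y.F := Module.finrank_pos
    refine Nat.eq_of_mul_eq_mul_left h6 ?_
    rw [h4, ← h5, mul_comm]

/-- the algebraic theorem -/
def AlgR (i g M : ℕ) (c : ℕ → ℕ) : Prop :=
  ∀ (T : Finset ℕ) (_ : ∀ p ∈ T, p.Prime) (_ : 2 ∈ T) (V : Finset ℕ) (K : NF), DvV i V T K.F →
    ∃ A B C E Z Z' : List NF,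
      Rel ∅ (K :: (A ++ (C ++ C))) (B ++ (E ++ E)) ∧
      (∀ l ∈ T, ∀ _ : Fact l.Prime, ∀ U : Subgroup GQ, U ≤ decomp ℚ_[l] (emb l) →
        ((K :: (A ++ (C ++ C)) ++ (Z ++ Z)).map fun F => mark F.F U).sum =
          ((B ++ (E ++ E) ++ (Z' ++ Z')).map fun F => mark F.F U).sum) ∧
      (∀ X ∈ A ++ B, Module.finrank ℚ X.F ≤ c (Module.finrank ℚ K.F) ∧ ExaR i g M V T X) ∧
      ∀ X ∈ C ++ E, Module.finrank ℚ X.F ≤ c (Module.finrank ℚ K.F)

end Pool.Agent.GR
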