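import Pool.Agent.GK.X.Desc
import Pool.Agent.GR.X.Lst

/-!
# GR/X-Desc: from fields with few real places and deep local degrees to all fields

`desR` is the step from `i + 1` to `i` (LEMMA X), `desR_all` the downward induction to `i = 0`: all fields.
-/

namespace Pool.Agent.GR

open NumberField IsDedekindDomain Pool.Agent.HWR Pool.Agent.QD Pool.Agent.H73.AL Pool.Agent.H73.DU
  Pool.Agent.MD Pool.Agent.LD Pool.Agent.GJ Pool.Agent.GK

theorem desR {T : Finset ℕ} (hTp : ∀ p ∈ T, p.Prime)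
    (hT : ∀ p : ℕ, p.Prime → p < 101 → p ∈ T) (D : LocData T) {a : ℕ → ℝ}
    (ha : ∀ q : ℕ, |a q| ≤ 2 * Real.sqrt q) (V : Finset ℕ) {i g M : ℕ} {c : ℕ → ℕ}
    (hc : AlgR i g M c) (N N' : ℕ) (hN : ∀ k : ℕ, k ≤ N → c k ≤ N') (hNN : N ≤ N')
    (HR : ∀ F : NF, InfinitePlace.nrComplexPlaces F.F = 0 →
      Module.finrank ℚ F.F ≤ N' → D.HW a F.F)
    (HQ : ∀ Y : NF, Module.finrank ℚ Y.F ≤ N' → Pool.Agent.TF2.AllQ D a Y.F)
    (H : ∀ F : NF, M ∣ Module.finrank ℚ F.F → Module.finrank ℚ F.F ≤ N' → RaD g F.F →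
      DvV (i + 1) V T F.F → D.HW a F.F)
    (K : NF) (hKN : Module.finrank ℚ K.F ≤ N) (hK : DvV i V T K.F) : D.HW a K.F := by
  obtain ⟨A, B, C, E, Z, Z', h0, h1, h2, h3⟩ := hc T hTp (hT 2 Nat.prime_two (by norm_num)) V K hK
  have hcK := hN _ hKN
  refine lemX hTp hT D ha K A B C E Z Z' (HQ K (hKN.trans hNN)).1 ?_ ?_ h0 h1
  · intro X hX
    obtain ⟨g1, g2⟩ := h2 X hX
    rcases g2 with ⟨g2, g3, g4⟩ | g2 | ⟨Y, inst, g4⟩
    · exact H X g4 (g1.trans hcK) g3 g2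
    · exact HR X g2 (g1.trans hcK)
    · have g6 : Module.finrank ℚ X.F = 2 * Module.finrank ℚ Y.F := by
        rw [← Module.finrank_mul_finrank ℚ Y.F X.F, g4, mul_comm]
      exact (HQ Y (by omega)).2 X.F g4
  · intro X hX
    exact (HQ X ((h3 X hX).trans hcK)).1

/-- the bound for the degrees after `k` steps upwards -/
def bZ (c : ℕ → ℕ → ℕ) : ℕ → ℕ → ℕ
  | 0, N => N
  | k + 1, N => bR (c k) (bZ c k N)

theorem bZ_mono (c : ℕ → ℕ → ℕ) (N : ℕ) {i j : ℕ} (h : i ≤ j) : bZ c i N ≤ bZ c j N :=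
  monotone_nat_of_le_succ (f := fun i => bZ c i N) (fun _ => Nat.le_add_left _ _) h

theorem le_bZ (c : ℕ → ℕ → ℕ) (N j : ℕ) : N ≤ bZ c j N := bZ_mono c N (Nat.zero_le j)

theorem dvV_zero (V T : Finset ℕ) (F : Type) [Field F] [NumberField F] : DvV 0 V T F := by
  intro p hp hpp hpT w hw
  rw [pow_zero]
  exact one_dvd _

theorem desR_all {T : Finset ℕ} (hTp : ∀ p ∈ T, p.Prime)
    (hT : ∀ p : ℕ, p.Prime → p < 101 → p ∈ T) (D : LocData T) {a : ℕ → ℝ}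
    (ha : ∀ q : ℕ, |a q| ≤ 2 * Real.sqrt q) (V : Finset ℕ) {g M : ℕ} {c : ℕ → ℕ → ℕ}
    (hc : ∀ i, AlgR i g M (c i)) (N j : ℕ)
    (HR : ∀ F : NF, InfinitePlace.nrComplexPlaces F.F = 0 →
      Module.finrank ℚ F.F ≤ bZ c (j + 1) N → D.HW a F.F)
    (HQ : ∀ Y : NF, Module.finrank ℚ Y.F ≤ bZ c (j + 1) N → Pool.Agent.TF2.AllQ D a Y.F)
    (H : ∀ F : NF, M ∣ Module.finrank ℚ F.F → Module.finrank ℚ F.F ≤ bZ c (j + 1) N →
      RaD g F.F → DvV (j + 1) V T F.F → D.HW a F.F)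
    (K : NF) (hKN : Module.finrank ℚ K.F ≤ N) : D.HW a K.F := by
  have key : ∀ k : ℕ, k ≤ j → ∀ F : NF, Module.finrank ℚ F.F ≤ bZ c (j - k) N →
      DvV (j - k) V T F.F → D.HW a F.F := by
    intro k
    induction k with
    | zero =>
      intro _ F hF1 hF2
      exact desR hTp hT D ha V (hc j) (bZ c j N) (bZ c (j + 1) N) (fun x hx => le_bR hx)
        (bZ_mono c N (Nat.le_succ j)) HR HQ H F hF1 hF2
    | succ k ih =>
      intro hk F hF1 hF2
      have e : j - k = j - (k + 1) + 1 := by omega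
      have ih' := ih (by omega)
      rw [e] at ih'
      refine desR hTp hT D ha V (hc (j - (k + 1))) (bZ c (j - (k + 1)) N)
        (bZ c (j - (k + 1) + 1) N) (fun x hx => le_bR hx) (bZ_mono c N (Nat.le_succ _))
        (fun X h1 h2 => HR X h1 (h2.trans (bZ_mono c N (by omega))))
        (fun X h1 => HQ X (h1.trans (bZ_mono c N (by omega)))) ?_ F hF1 hF2
      intro X _ h2 _ h4
      exact ih' X h2 h4
  have h1 := key j le_rfl K
  rw [Nat.sub_self] at h1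
  exact h1 hKN (dvV_zero V T K.F)

end Pool.Agent.GR
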