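import Pool.Agent.GK.X.Fin
import Pool.Agent.GR.X.Desc
import Pool.Agent.QD.N4.Real

/-!
# GR/X-Fin: all number fields, from fields with few real places

`v_few`: the hypothesis concerns fields with at most `ρ [F : ℚ]` real places, `ρ > 0`, and local degrees divisible by
`2 ^ i`; the conclusion is the Hasse-Weil conjecture, with its exact sign, over all number fields.  `v_thin` (GK/X/Fin) gives the
conclusions up to sign and over quadratic extensions, `desR_all` the sign.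
-/

namespace Pool.Agent.GR

open NumberField IsDedekindDomain Pool.Agent.HWR Pool.Agent.QD Pool.Agent.H73.AL Pool.Agent.LD
  Pool.Agent.TS Pool.Agent.GJ Pool.Agent.GK

/-- `r₁(L) ≤ [L : F] r₁(F)` -/
theorem real_le (F L : Type) [Field F] [NumberField F] [Field L] [NumberField L] [Algebra F L] :
    InfinitePlace.nrRealPlaces L ≤ Module.finrank F L * InfinitePlace.nrRealPlaces F := by
  classical
  rw [N4.card_real, N4.card_real, Nat.card_eq_fintype_card, Nat.card_eq_fintype_card,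
    ← Finset.card_univ, ← Finset.card_univ]
  let r : (L →+* ℝ) → (F →+* ℝ) := fun ψ => ψ.comp (algebraMap F L)
  refine (Finset.card_le_mul_card_image (f := r) Finset.univ (Module.finrank F L) ?_).trans
    (Nat.mul_le_mul_left _ (Finset.card_le_card (Finset.subset_univ _)))
  intro φ _
  let _ : Algebra F ℝ := φ.toAlgebra
  have h1 := card_algHom_le_finrank F L ℝ
  refine le_trans ?_ h1
  rw [← Fintype.card_coe, ← Nat.card_eq_fintype_card]
  refine Nat.card_le_card_of_injective (fun ψ => ?_) ?_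
  · refine AlgHom.mk ψ.1 fun x => ?_
    have h2 : r ψ.1 = φ := (Finset.mem_filter.1 ψ.2).2
    exact RingHom.congr_fun h2 x
  · intro ψ ψ' h
    apply Subtype.ext
    ext x
    exact DFunLike.congr_fun h x

/-- few real places (a proportion `ρ`), local degrees divisible by `2 ^ i` -/
def ThinR (ρ : ℝ) (i : ℕ) (V T : Finset ℕ) (F : Type) [Field F] [NumberField F] : Prop :=
  (InfinitePlace.nrRealPlaces F : ℝ) ≤ ρ * Module.finrank ℚ F ∧ DvV i V T F

theorem ThinR.ext {ρ : ℝ} {i : ℕ} {V T : Finset ℕ} {K L : Type} [Field K] [NumberField K] [Field L]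
    [NumberField L] [Algebra K L] (h : ThinR ρ i V T K) : ThinR ρ i V T L := by
  refine ⟨?_, dvV_ext (K := K) h.2⟩
  have h1 : (InfinitePlace.nrRealPlaces L : ℝ) ≤
      Module.finrank K L * InfinitePlace.nrRealPlaces K := by exact_mod_cast real_le K L
  have h2 : (Module.finrank ℚ L : ℝ) = Module.finrank ℚ K * Module.finrank K L := by
    exact_mod_cast (Module.finrank_mul_finrank ℚ K L).symm
  have h3 : (0 : ℝ) ≤ Module.finrank K L := Nat.cast_nonneg _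
  rw [h2]
  nlinarith [mul_le_mul_of_nonneg_left h.1 h3]

theorem ThinR.mono {ρ : ℝ} {i j : ℕ} (hij : i ≤ j) {V T : Finset ℕ} {F : Type} [Field F]
    [NumberField F] (h : ThinR ρ j V T F) : ThinR ρ i V T F := ⟨h.1, h.2.mono hij⟩

/-- totally complex fields have few real places -/
theorem thinR_of {ρ : ℝ} (hρ : 0 ≤ ρ) {i : ℕ} {V T : Finset ℕ} {F : Type} [Field F]
    [NumberField F] (h : ThinD i V T F) : ThinR ρ i V T F := by
  refine ⟨?_, h.2⟩
  have h1 : IsEmpty (F →+* ℝ) := h.1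
  have h2 : InfinitePlace.nrRealPlaces F = 0 := by
    rw [N4.card_real]
    exact Nat.card_eq_zero.2 (Or.inl h1)
  rw [h2, Nat.cast_zero]
  positivity

theorem thinR_raD {ρ : ℝ} {g : ℕ} (hg : 2 ≤ ρ * g) {i : ℕ} {V T : Finset ℕ} {F : Type} [Field F]
    [NumberField F] (h : RaD g F) (h' : DvV i V T F) : ThinR ρ i V T F := by
  refine ⟨?_, h'⟩
  have h1 : (g : ℝ) * InfinitePlace.nrRealPlaces F ≤ 2 * Module.finrank ℚ F := by
    exact_mod_cast h
  have hg0 : (0 : ℝ) < g := by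
    rcases Nat.eq_zero_or_pos g with h0 | h0
    · rw [h0, Nat.cast_zero, mul_zero] at hg
      linarith
    · exact_mod_cast h0
  have h2 : (0 : ℝ) ≤ Module.finrank ℚ F := Nat.cast_nonneg _
  have h3 := mul_le_mul_of_nonneg_right hg h2
  refine le_of_mul_le_mul_left ?_ hg0
  linarith

/-- towers of quadratic extensions of thin fields -/
theorem towv_thR {T : Finset ℕ} (D : LocData T) {a : ℕ → ℝ} {ρ : ℝ} {V : Finset ℕ}
    {d j M N : ℕ}
    (H : ∀ F : NF, M ∣ Module.finrank ℚ F.F → Module.finrank ℚ F.F ≤ N → ThinR ρ d V T F.F →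
      HypQ D a j N [] F) (i : ℕ) :
    ∀ (F : Type) [Field F] [NumberField F], ThinR ρ d V T F → M ∣ Module.finrank ℚ F →
      2 ^ i * Module.finrank ℚ F ≤ N → Pool.Agent.UPQ.TowV D a (2 ^ j - 1) i F := by
  induction i with
  | zero =>
    intro F _ _ h1 h2 h3
    obtain ⟨Q, g1, g2, g3, -⟩ := H ⟨F⟩ h2 (by simpa using h3) h1
    exact ⟨Q, g1, g2, g3⟩
  | succ i ih =>
    intro F _ _ h1 h2 h3
    have h4 : Module.finrank ℚ F ≤ N := by
      refine le_trans ?_ h3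
      exact Nat.le_mul_of_pos_left _ (by positivity)
    obtain ⟨Q, g1, g2, -, g3⟩ := H ⟨F⟩ h2 h4 h1
    have h5 : ∀ (L : Type) [Field L] [NumberField L] [Algebra F L], Module.finrank F L = 2 →
        2 ^ i * Module.finrank ℚ L ≤ N := by
      intro L _ _ _ hL
      rw [← Module.finrank_mul_finrank ℚ F L, hL]
      rw [pow_succ] at h3
      linarith
    refine ⟨⟨Q, g1, g2, fun L _ _ _ hL => g3 L hL ?_ fun X hX => absurd hX List.not_mem_nil⟩,
      fun L _ _ _ hL => ih L (ThinR.ext (K := F) h1) ?_ (h5 L hL)⟩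
    · refine le_trans ?_ (h5 L hL)
      exact Nat.le_mul_of_pos_left _ (by positivity)
    · rw [← Module.finrank_mul_finrank ℚ F L]
      exact h2.mul_right _

/-- from the version with poles to the Hasse-Weil conjecture, with exceptions -/
theorem hwv_thR {T : Finset ℕ} (hTp : ∀ p ∈ T, p.Prime)
    (hT : ∀ p : ℕ, p.Prime → p < 101 → p ∈ T) (D : LocData T) {a : ℕ → ℝ}
    (ha : ∀ q : ℕ, |a q| ≤ 2 * Real.sqrt q) (hfr : FrobRel T a)
    (haz : ∀ q : ℕ, ∃ n : ℤ, a q = n) {ρ : ℝ} (V : Finset ℕ) (M N : ℕ) (L : List NF) {d j : ℕ}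
    (hd : 1 ≤ d)
    (H : ∀ F : NF, M ∣ Module.finrank ℚ F.F → Module.finrank ℚ F.F ≤ 2 ^ j * N →
      ThinR ρ d V T F.F → (∀ X ∈ L, ¬ Nonempty (X.F ≃+* F.F)) → HypQ D a j (2 ^ j * N) L F) :
    ∃ V' : Finset ℕ, ∀ F : NF, M ∣ Module.finrank ℚ F.F → Module.finrank ℚ F.F ≤ N →
      ThinR ρ d V' T F.F → D.HW a F.F := by
  obtain ⟨V', hV, hX⟩ := exists_V V T L
  refine ⟨V', fun F h1 h2 h3 => ?_⟩
  have hr : 2 ^ j - 1 < 2 ^ j := by
    have h4 : 0 < 2 ^ j := by positivity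
    omega
  refine Pool.Agent.UPQ.towv_hw hTp hT D ha hfr haz hr F.F ?_
  refine towv_thR D (ρ := ρ) (V := V') (d := d) (M := M) (N := 2 ^ j * N)
    (fun E h4 h5 hE => ?_) j F.F h3 h1 ?_
  · obtain ⟨Q, g1, g2, g3, g4⟩ := H E h4 h5 ⟨hE.1, fun p hp => hE.2 p (hV hp)⟩
      (hX E (hE.2.ev hd))
    refine ⟨Q, g1, g2, g3, fun Y _ _ _ hY h6 _ => g4 Y hY h6 ?_⟩
    exact hX ⟨Y⟩ (evV_ext (K := E.F) (hE.2.ev hd))
  · exact Nat.mul_le_mul_left _ h2

theorem le_bTh (c : ℕ → ℕ → ℕ) (b : ℕ → ℕ → ℕ → ℕ) (i n m : ℕ) : n ≤ bTh c b i n m :=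
  (Nat.le_add_left _ _).trans ((Pool.Agent.TF2.le_bdC _ m).trans (le_bY _ _ _ _))

/-- the bound for the degrees -/
def bTr (c : ℕ → ℕ → ℕ) (b : ℕ → ℕ → ℕ → ℕ) (e : ℕ → ℕ → ℕ) (i n m : ℕ) : ℕ :=
  bTh c b i (bZ e (i - 1 + 1) n) m

theorem v_few {c : ℕ → ℕ → ℕ} {b : ℕ → ℕ → ℕ → ℕ} {e : ℕ → ℕ → ℕ}
    (hc : ∀ i, AlgY i (c i)) (hb : ∀ i m, ClW i m (b i m)) {T : Finset ℕ}
    (hTp : ∀ p ∈ T, p.Prime) (hT : ∀ p : ℕ, p.Prime → p < 101 → p ∈ T) (D : LocData T)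
    {a : ℕ → ℝ} (ha : ∀ q : ℕ, |a q| ≤ 2 * Real.sqrt q) (hfr : FrobRel T a)
    (haz : ∀ q : ℕ, ∃ n : ℤ, a q = n) {ρ : ℝ} (hρ : 0 ≤ ρ) (V : Finset ℕ) (L : List NF)
    (i n m j g : ℕ) (he : ∀ i, AlgR i g (2 ^ (m + 1)) (e i))
    (hQ : D.HW a ℚ)
    (hR2 : ∀ (R : Type) [Field R] [NumberField R], InfinitePlace.nrComplexPlaces R = 0 →
      Module.finrank ℚ R = 2 ^ m → D.HW a R ∧
      ∀ (F : Type) [Field F] [NumberField F] [Algebra R F], Module.finrank R F = 2 → D.HW a F)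
    (HR : ∀ F : NF, InfinitePlace.nrComplexPlaces F.F = 0 →
      Module.finrank ℚ F.F ≤ bTr c b e i n m → D.HW a F.F)
    (H : ∀ F : NF, 2 ^ (m + 1) ∣ Module.finrank ℚ F.F →
      Module.finrank ℚ F.F ≤ 2 ^ j * bTr c b e i n m → ThinR ρ i V T F.F →
      (∀ X ∈ L, ¬ Nonempty (X.F ≃+* F.F)) → HypQ D a j (2 ^ j * bTr c b e i n m) L F)
    (K : Type) [Field K] [NumberField K] (hK : Module.finrank ℚ K ≤ n) :
    Pool.Agent.TF2.AllQ D a K ∧ (InfinitePlace.nrRealPlaces K = 0 → D.HW a K) ∧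
      (2 ≤ ρ * g → D.HW a K) := by
  have hi : i ≤ i - 1 + 1 := by omega
  have all : ∀ (Y : Type) [Field Y] [NumberField Y],
      Module.finrank ℚ Y ≤ bZ e (i - 1 + 1) n →
      Pool.Agent.TF2.AllQ D a Y ∧ (InfinitePlace.nrRealPlaces Y = 0 → D.HW a Y) :=
    fun Y _ _ hY => v_thin hc hb hTp hT D ha hfr haz V L i (bZ e (i - 1 + 1) n) m j hQ hR2 HR
      (fun F h1 h2 h3 h4 => H F h1 h2 (thinR_of hρ h3) h4) Y hY
  have hK1 : Module.finrank ℚ K ≤ bZ e (i - 1 + 1) n := hK.trans (le_bZ e n _)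
  refine ⟨(all K hK1).1, (all K hK1).2, fun hg => ?_⟩
  have hle : bZ e (i - 1 + 1) n ≤ bTr c b e i n m := le_bTh _ _ _ _ _
  obtain ⟨V', hV'⟩ := hwv_thR hTp hT D ha hfr haz (ρ := ρ) V (2 ^ (m + 1))
    (bZ e (i - 1 + 1) n) L (Nat.le_add_left 1 (i - 1)) (j := j) (fun F h1 h2 h3 h4 => by
      obtain ⟨Q, g1, g2, g3, g4⟩ := H F h1 (h2.trans (Nat.mul_le_mul_left _ hle)) (h3.mono hi) h4
      exact ⟨Q, g1, g2, g3, fun E _ _ _ h5 h6 h7 =>
        g4 E h5 (h6.trans (Nat.mul_le_mul_left _ hle)) h7⟩)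
  exact desR_all hTp hT D ha V' he n (i - 1) (fun F h1 h2 => HR F h1 (h2.trans hle))
    (fun Y h1 => (all Y.F h1).1)
    (fun F h1 h2 h3 h4 => hV' F h1 h2 (thinR_raD hg h3 h4)) ⟨K⟩ hK

end Pool.Agent.GR
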